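import Pool.Agent.Y811.PC.Stm

/-!
# Project PC, statement LOWER: some orbit escapes soon after the first return
-/

set_option autoImplicit false

namespace Pool.Agent.Y587.PC

open Complex Metric Set Filter Topology Pool.Agent.H712R2 Pool.Agent.H713R2
open Pool.Agent.Y811.PC

/-- the open set of the variable `x` -/
def Om : Set ℂ := {x : ℂ | 0 < x.im ∧ ‖x‖ < 8}

lemma isOpen_Om : IsOpen Om :=
  (isOpen_lt continuous_const Complex.continuous_im).inter (isOpen_lt continuous_norm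
    continuous_const)

/-- the closed rectangle -/
def Rc (δ : ℝ) : Set ℂ := {x : ℂ | |x.re| ≤ δ ∧ |x.im - 2 * Real.pi| ≤ δ}

lemma isClosed_Rc (δ : ℝ) : IsClosed (Rc δ) :=
  (isClosed_le (Complex.continuous_re.abs) continuous_const).inter
    (isClosed_le ((Complex.continuous_im.sub continuous_const).abs) continuous_const)

lemma norm_Rc {δ : ℝ} {x : ℂ} (hx : x ∈ Rc δ) : ‖x‖ ≤ 2 * Real.pi + 2 * δ := by
  have h1 := Complex.norm_le_abs_re_add_abs_im x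
  have h2 := hx.1
  have h3 : |x.im| ≤ 2 * Real.pi + δ := by
    have h4 := abs_le.1 hx.2
    have := Real.pi_pos
    rw [abs_le]
    constructor <;> linarith [h4.1, h4.2]
  linarith

lemma Rc_sub_Om {δ : ℝ} (hδ : δ ≤ 1 / 4) : Rc δ ⊆ Om := by
  intro x hx
  have h1 := norm_Rc hx
  have h2 := abs_le.1 hx.2
  have h3 := Real.pi_gt_three
  have h4 := Real.pi_lt_four
  have h5 := Real.pi_lt_d2
  exact ⟨by linarith [h2.1], by linarith⟩

lemma bd_sub {δ : ℝ} : Bd δ ⊆ Rc δ := fun _ hx => ⟨hx.1, hx.2.1⟩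

/-- the root -/
noncomputable def tau (e n : ℕ) (x : ℂ) : ℂ := (x / n) ^ ((e : ℂ)⁻¹)

lemma tau_pow {e : ℕ} (he : e ≠ 0) (n : ℕ) (x : ℂ) : tau e n x ^ e = x / n :=
  Complex.cpow_nat_inv_pow _ he

lemma tau_diff (e : ℕ) {n : ℕ} (hn : 0 < n) {x : ℂ} (hx : 0 < x.im) :
    DifferentiableAt ℂ (tau e n) x := by
  unfold tau
  refine DifferentiableAt.cpow ?_ (differentiableAt_const _) ?_
  · exact differentiableAt_id.div_const _
  · right
    have hn' : (0 : ℝ) < n := by exact_mod_cast hn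
    have e1 : (x / (n : ℂ)).im = x.im / n := by
      rw [← Complex.ofReal_natCast, Complex.div_ofReal_im]
    rw [e1]
    exact (div_pos hx hn').ne'

lemma tau_small {e : ℕ} (he : e ≠ 0) {n : ℕ} (hn : 0 < n) {x : ℂ} (hx : ‖x‖ < 8) {η : ℝ}
    (hη : 0 < η) (hn8 : 8 ≤ n * η ^ e) : ‖tau e n x‖ < η := by
  have hn' : (0 : ℝ) < n := by exact_mod_cast hn
  have h1 : ‖tau e n x‖ ^ e < η ^ e := by
    rw [← norm_pow, tau_pow he, norm_div, Complex.norm_natCast, div_lt_iff₀ hn']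
    linarith
  exact lt_of_pow_lt_pow_left₀ e hη.le h1

theorem t_LOWER (h1 : S_SEC) (h2 : S_EDGE) (h3 : S_PT) (h4 : S_MAXP) (_hA : S_ANA) :
    S_LOWER := by
  intro d m q c₀ z₀ s b ρ ε C N₀ hPD hNF hb hOrb hCurve δ ε' hδ hε'
  -- the rectangle
  obtain ⟨del, hdel⟩ : ∃ del : ℝ, del = min δ 1 / 4 := ⟨_, rfl⟩
  have hdel0 : 0 < del := by
    rw [hdel]
    have : 0 < min δ 1 := lt_min hδ one_pos
    linarith
  have hdel4 : del ≤ 1 / 4 := by
    rw [hdel]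
    have : min δ 1 ≤ 1 := min_le_right _ _
    linarith
  have hdelδ : 4 * del ≤ δ := by
    rw [hdel]
    have : min δ 1 ≤ δ := min_le_left _ _
    linarith
  have hdel1 : del < 1 := by linarith
  obtain ⟨e, δ₀, cc, aa, he, hδ₀, hcc, haa, hcc0, haa0, hcur⟩ := h1 d m q c₀ z₀ hPD hCurve
  have he0 : e ≠ 0 := by omega
  obtain ⟨ε₁, C₃, n₁, hε₁, hε₁ε, hC₃, hedge⟩ :=
    h2 d m q c₀ z₀ s b ρ ε C N₀ hPD hNF hb hOrb del hdel0 hdel1
  -- the bound of `s` on a compact set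
  obtain ⟨C₄, hC₄⟩ : ∃ C₄ : ℝ, ∀ c ∈ closedBall c₀ (ε / 2), ∀ α ∈ closedBall z₀ (ε / 2),
      ∀ u ∈ closedBall (0 : ℂ) (4 + ‖z₀‖), ‖s c α u‖ ≤ C₄ := by
    have hK : IsCompact (closedBall c₀ (ε / 2) ×ˢ
        (closedBall z₀ (ε / 2) ×ˢ closedBall (0 : ℂ) (4 + ‖z₀‖))) :=
      (isCompact_closedBall _ _).prod ((isCompact_closedBall _ _).prod (isCompact_closedBall _ _))
    have hsub : (closedBall c₀ (ε / 2) ×ˢ
        (closedBall z₀ (ε / 2) ×ˢ closedBall (0 : ℂ) (4 + ‖z₀‖))) ⊆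
        (ball c₀ ε ×ˢ (ball z₀ ε ×ˢ (univ : Set ℂ))) := by
      have hε := hNF.hε
      refine Set.prod_mono (closedBall_subset_ball (by linarith)) (Set.prod_mono
        (closedBall_subset_ball (by linarith)) (subset_univ _))
    obtain ⟨C₄, h⟩ := hK.exists_bound_of_continuousOn (hNF.diff.continuousOn.mono hsub)
    exact ⟨C₄, fun c hc α hα u hu => h (c, α, u) ⟨hc, hα, hu⟩⟩
  obtain ⟨C₅, hC₅⟩ : ∃ C₅ : ℝ, C₅ = max C₃ C₄ := ⟨_, rfl⟩
  have hC₅0 : 0 < C₅ := by rw [hC₅]; exact lt_max_of_lt_left hC₃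
  have hb0 : 0 < ‖b c₀ z₀‖ := norm_pos_iff.2 hb
  -- the point
  obtain ⟨κ, hκ0, hκ1, hκ2, hκ3⟩ : ∃ κ : ℝ, 0 < κ ∧ κ < 1 / 2 ∧ κ < del ∧
      ‖b c₀ z₀‖ * κ * (C₅ * 3 ^ (4 * q)) < del ^ (4 * q) := by
    have hD : 0 < ‖b c₀ z₀‖ * (C₅ * 3 ^ (4 * q)) := by positivity
    have hd0 : 0 < del ^ (4 * q) := by positivity
    refine ⟨min (del / 2) (del ^ (4 * q) / (2 * (‖b c₀ z₀‖ * (C₅ * 3 ^ (4 * q))))), ?_, ?_, ?_, ?_⟩
    · exact lt_min (by linarith) (by positivity)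
    · exact (min_le_left _ _).trans_lt (by linarith)
    · exact (min_le_left _ _).trans_lt (by linarith)
    · have h5 : ‖b c₀ z₀‖ * min (del / 2) (del ^ (4 * q) /
          (2 * (‖b c₀ z₀‖ * (C₅ * 3 ^ (4 * q))))) * (C₅ * 3 ^ (4 * q)) =
          min (del / 2) (del ^ (4 * q) / (2 * (‖b c₀ z₀‖ * (C₅ * 3 ^ (4 * q))))) *
            (‖b c₀ z₀‖ * (C₅ * 3 ^ (4 * q))) := by ring
      rw [h5]
      have h6 := mul_le_mul_of_nonneg_right (min_le_right (del / 2) (del ^ (4 * q) /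
        (2 * (‖b c₀ z₀‖ * (C₅ * 3 ^ (4 * q)))))) hD.le
      refine h6.trans_lt ?_
      have h7 : del ^ (4 * q) / (2 * (‖b c₀ z₀‖ * (C₅ * 3 ^ (4 * q)))) *
          (‖b c₀ z₀‖ * (C₅ * 3 ^ (4 * q))) = del ^ (4 * q) / 2 := by
        field_simp
      rw [h7]
      linarith
  obtain ⟨ε₂, n₂, hε₂, hε₂ε, hpt⟩ :=
    h3 d m q c₀ z₀ s b ρ ε C N₀ hPD hNF hb hOrb κ hκ0 hκ1
  -- the radius of the parameter
  obtain ⟨r, hr, hr1, hr2, hr3, hr4⟩ : ∃ r : ℝ, 0 < r ∧ r ≤ ε₁ ∧ r ≤ ε₂ ∧ r ≤ ε' ∧ r ≤ ε / 2 :=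
    ⟨min (min ε₁ ε₂) (min ε' (ε / 2)), lt_min (lt_min hε₁ hε₂) (lt_min hε' (by
      have := hNF.hε; linarith)), (min_le_left _ _).trans (min_le_left _ _),
      (min_le_left _ _).trans (min_le_right _ _), (min_le_right _ _).trans (min_le_left _ _),
      (min_le_right _ _).trans (min_le_right _ _)⟩
  obtain ⟨η, hη, hηδ, hball⟩ : ∃ η : ℝ, 0 < η ∧ η ≤ δ₀ ∧ ∀ t ∈ ball (0 : ℂ) η,
      cc t ∈ ball c₀ r ∧ aa t ∈ ball z₀ r := by
    have hca : ContinuousAt cc 0 :=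
      (hcc.differentiableAt (ball_mem_nhds 0 hδ₀)).continuousAt
    have haa' : ContinuousAt aa 0 :=
      (haa.differentiableAt (ball_mem_nhds 0 hδ₀)).continuousAt
    have h5 : ∀ᶠ t in 𝓝 (0 : ℂ), cc t ∈ ball c₀ r ∧ aa t ∈ ball z₀ r := by
      have e1 : ball c₀ r ∈ 𝓝 (cc 0) := by rw [hcc0]; exact ball_mem_nhds _ hr
      have e2 : ball z₀ r ∈ 𝓝 (aa 0) := by rw [haa0]; exact ball_mem_nhds _ hr
      exact (hca.eventually e1).and (haa'.eventually e2)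
    obtain ⟨η, hη, h6⟩ := Metric.eventually_nhds_iff_ball.1 h5
    exact ⟨min η δ₀, lt_min hη hδ₀, min_le_right _ _, fun t ht =>
      h6 t (ball_subset_ball (min_le_left _ _) ht)⟩
  -- the size of `n`
  obtain ⟨n₃, hn₃⟩ := exists_nat_ge (8 / η ^ e)
  refine ⟨max (max n₁ n₂) (max n₃ 1), fun n hn => ?_⟩
  have hnn₁ : n₁ ≤ n := (le_max_left _ _).trans ((le_max_left _ _).trans hn)
  have hnn₂ : n₂ ≤ n := (le_max_right _ _).trans ((le_max_left _ _).trans hn)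
  have hnn₃ : n₃ ≤ n := (le_max_left _ _).trans ((le_max_right _ _).trans hn)
  have hn1 : 1 ≤ n := (le_max_right _ _).trans ((le_max_right _ _).trans hn)
  have hn0 : 0 < n := hn1
  have hnR : (0 : ℝ) < n := by exact_mod_cast hn0
  have hn8 : 8 ≤ n * η ^ e := by
    have hpos : 0 < η ^ e := pow_pos hη e
    have h5 : 8 / η ^ e ≤ n := hn₃.trans (by exact_mod_cast hnn₃)
    exact (div_le_iff₀ hpos).1 h5
  by_contra hcon
  push Not at hcon
  -- the point of the curve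
  have ht : ∀ x ∈ Om, tau e n x ∈ ball (0 : ℂ) η := by
    intro x hx
    rw [mem_ball_zero_iff]
    exact tau_small he0 hn0 hx.2 hη hn8
  have htδ : ∀ x ∈ Om, tau e n x ∈ ball (0 : ℂ) δ₀ := fun x hx => ball_subset_ball hηδ (ht x hx)
  have hG : ∀ x ∈ Om, G d m (cc (tau e n x)) (aa (tau e n x)) = aa (tau e n x) := fun x hx =>
    (hcur _ (htδ x hx)).1
  have hL : ∀ x ∈ Om, 1 - Lq d m q (cc (tau e n x)) (aa (tau e n x)) = x / n := by
    intro x hx
    rw [(hcur _ (htδ x hx)).2, tau_pow he0]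
  obtain ⟨F, hF⟩ : ∃ F : ℂ → ℂ, F = fun x => (n : ℂ) * s (cc (tau e n x)) (aa (tau e n x))
      (P d (N₀ + m * n) (cc (tau e n x)) - aa (tau e n x)) := ⟨_, rfl⟩
  have hFn : ∀ x, ‖F x‖ = n * ‖s (cc (tau e n x)) (aa (tau e n x))
      (P d (N₀ + m * n) (cc (tau e n x)) - aa (tau e n x))‖ := by
    intro x
    rw [hF]
    simp only [norm_mul, Complex.norm_natCast]
  -- differentiability
  have hFd : DifferentiableOn ℂ F Om := by
    intro x hx
    apply DifferentiableAt.differentiableWithinAt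
    have d1 : DifferentiableAt ℂ (tau e n) x := tau_diff e hn0 hx.1
    have d2 : DifferentiableAt ℂ (fun x => cc (tau e n x)) x :=
      (hcc.differentiableAt (isOpen_ball.mem_nhds (htδ x hx))).comp x d1
    have d3 : DifferentiableAt ℂ (fun x => aa (tau e n x)) x :=
      (haa.differentiableAt (isOpen_ball.mem_nhds (htδ x hx))).comp x d1
    have d4 : DifferentiableAt ℂ (fun x => P d (N₀ + m * n) (cc (tau e n x))) x :=
      ((differentiable_P d (N₀ + m * n)) _).comp x d2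
    have d5 : DifferentiableAt ℂ (fun x => (cc (tau e n x), aa (tau e n x),
        P d (N₀ + m * n) (cc (tau e n x)) - aa (tau e n x))) x :=
      d2.prodMk (d3.prodMk (d4.sub d3))
    have hmem : (cc (tau e n x), aa (tau e n x),
        P d (N₀ + m * n) (cc (tau e n x)) - aa (tau e n x)) ∈
        (ball c₀ ε ×ˢ (ball z₀ ε ×ˢ (univ : Set ℂ))) := by
      obtain ⟨g1, g2⟩ := hball _ (ht x hx)
      have hε := hNF.hε
      exact ⟨ball_subset_ball (by linarith) g1, ball_subset_ball (by linarith) g2, mem_univ _⟩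
    have hopen : IsOpen (ball c₀ ε ×ˢ (ball z₀ ε ×ˢ (univ : Set ℂ))) :=
      isOpen_ball.prod (isOpen_ball.prod isOpen_univ)
    have d6 := (hNF.diff.differentiableAt (hopen.mem_nhds hmem)).comp x d5
    rw [hF]
    exact (differentiableAt_const _).mul d6
  have hcl : closure {x : ℂ | |x.re| < del ∧ |x.im - 2 * Real.pi| < del} ⊆ Rc del :=
    closure_minimal (fun x hx => ⟨hx.1.le, hx.2.le⟩) (isClosed_Rc del)
  have hsubO := Rc_sub_Om hdel4
  have hdc : DiffContOnCl ℂ F {x : ℂ | |x.re| < del ∧ |x.im - 2 * Real.pi| < del} :=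
    (hFd.mono (hcl.trans hsubO)).diffContOnCl
  -- the crude bound
  have hcrude : ∀ x ∈ Rc del, ‖F x‖ ≤ C₅ * n := by
    intro x hx
    have hxO := hsubO hx
    obtain ⟨g1, g2⟩ := hball _ (ht x hxO)
    have hnx : n * ‖1 - Lq d m q (cc (tau e n x)) (aa (tau e n x))‖ ≤ 2 * Real.pi + δ := by
      rw [hL x hxO, norm_div, Complex.norm_natCast, mul_div_assoc', mul_div_cancel_left₀ _ hnR.ne']
      have := norm_Rc hx
      linarith
    have hP := hcon _ (ball_subset_ball hr3 g1) _ (ball_subset_ball hr3 g2) (hG x hxO) hnx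
    have hε1 := hNF.hε1
    have hα : ‖aa (tau e n x)‖ ≤ ‖z₀‖ + 1 := by
      have h5 : ‖aa (tau e n x) - z₀‖ < r := by rw [← dist_eq_norm]; exact g2
      have h6 := norm_le_norm_add_norm_sub' (aa (tau e n x)) z₀
      linarith
    have hu : P d (N₀ + m * n) (cc (tau e n x)) - aa (tau e n x) ∈
        closedBall (0 : ℂ) (4 + ‖z₀‖) := by
      rw [mem_closedBall_zero_iff]
      have := norm_sub_le (P d (N₀ + m * n) (cc (tau e n x))) (aa (tau e n x))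
      linarith
    have h7 := hC₄ _ (ball_subset_closedBall (ball_subset_ball hr4 g1)) _
      (ball_subset_closedBall (ball_subset_ball hr4 g2)) _ hu
    rw [hFn, mul_comm C₅]
    refine mul_le_mul_of_nonneg_left (h7.trans ?_) hnR.le
    rw [hC₅]
    exact le_max_right _ _
  -- the bound on the boundary
  have hbd : ∀ x ∈ Bd del, 1 ≤ n * xi del x ^ (4 * q) → ‖F x‖ ≤ C₅ := by
    intro x hx hxi
    have hxO := hsubO (bd_sub hx)
    obtain ⟨g1, g2⟩ := hball _ (ht x hxO)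
    have h5 := hedge _ (ball_subset_ball hr1 g1) _ (ball_subset_ball hr1 g2) (hG x hxO) n hnn₁ x hx
      hxi (hL x hxO)
    rw [hFn]
    refine h5.trans ?_
    rw [hC₅]
    exact le_max_left _ _
  have hmax := h4 del hdel0 hdel1 (4 * q) n C₅ F hC₅0.le hn1 hdc
    (fun x hx => hcrude x (bd_sub hx)) hbd
  -- the point `i (2π - κ)`
  obtain ⟨x₁, hx₁⟩ : ∃ x₁ : ℂ, x₁ = ((2 * Real.pi - κ : ℝ) : ℂ) * I := ⟨_, rfl⟩
  have hre : x₁.re = 0 := by rw [hx₁]; simp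
  have him : x₁.im = 2 * Real.pi - κ := by rw [hx₁]; simp
  have hx₁re : |x₁.re| < del := by rw [hre, abs_zero]; exact hdel0
  have hx₁im : |x₁.im - 2 * Real.pi| < del := by
    rw [him]
    have : 2 * Real.pi - κ - 2 * Real.pi = -κ := by ring
    rw [this, abs_neg, abs_of_pos hκ0]
    exact hκ2
  have hxO : x₁ ∈ Om := hsubO ⟨hx₁re.le, hx₁im.le⟩
  have hm1 := hmax x₁ hx₁re hx₁im
  have hxi : del ≤ xi del x₁ := by
    unfold xi
    have h5 : x₁ - ((2 * Real.pi + del : ℝ) : ℂ) * I = ((-(κ + del) : ℝ) : ℂ) * I := by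
      rw [hx₁]
      push_cast
      ring
    rw [h5, norm_mul, Complex.norm_I, mul_one, Complex.norm_real, Real.norm_eq_abs, abs_neg,
      abs_of_pos (by linarith)]
    linarith
  obtain ⟨g1, g2⟩ := hball _ (ht x₁ hxO)
  have hlow := hpt _ (ball_subset_ball hr2 g1) _ (ball_subset_ball hr2 g2) (hG x₁ hxO) n hnn₂ x₁
    hx₁ (hL x₁ hxO)
  have hlow' : 1 ≤ ‖b c₀ z₀‖ * κ * ‖F x₁‖ := by
    rw [hFn]
    calc (1 : ℝ) ≤ _ := hlow
      _ = _ := by ring
  have h5 : del ^ (4 * q) ≤ xi del x₁ ^ (4 * q) := pow_le_pow_left₀ hdel0.le hxi _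
  have h6 : ‖F x₁‖ * del ^ (4 * q) ≤ C₅ * 3 ^ (4 * q) :=
    (mul_le_mul_of_nonneg_left h5 (norm_nonneg _)).trans hm1
  have h7 : del ^ (4 * q) ≤ ‖b c₀ z₀‖ * κ * (C₅ * 3 ^ (4 * q)) := by
    have hd0 : 0 ≤ del ^ (4 * q) := by positivity
    have hbk : 0 ≤ ‖b c₀ z₀‖ * κ := by positivity
    calc del ^ (4 * q) = 1 * del ^ (4 * q) := by ring
      _ ≤ ‖b c₀ z₀‖ * κ * ‖F x₁‖ * del ^ (4 * q) := mul_le_mul_of_nonneg_right hlow' hd0
      _ = ‖b c₀ z₀‖ * κ * (‖F x₁‖ * del ^ (4 * q)) := by ring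
      _ ≤ ‖b c₀ z₀‖ * κ * (C₅ * 3 ^ (4 * q)) := mul_le_mul_of_nonneg_left h6 hbk
  linarith

end Pool.Agent.Y587.PC
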